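import Pool.Agent.Lib.MP_b1a3a4_al.MVS.Interfaces

/-!
# Project MVS (MP_b1a3a4_al), module AUG: (3.2) and (3.3)
-/

set_option linter.all false

namespace Pool.Agent.Lib.MP_b1a3a4_al.MVS.H30

open Finsupp

/-- base change of a contraction -/
lemma contr_bc {Λ R : Type} [Ring Λ] [Ring R] (θ : Λ →+* R) {X : ℕ → Type} (d : Dif Λ X) (n : ℕ)
    (s : ∀ q : ℕ, (X q →₀ Λ) →ₗ[Λ] (X (q + 1) →₀ Λ)) (h : Contr d n s) :
    Contr (bcD θ d) n (fun q => bc θ (s q)) := by
  refine ⟨fun hn z => ?_, fun q hq z => ?_⟩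
  · have h0 : d 0 ∘ₗ s 0 = LinearMap.id := LinearMap.ext (fun z => h.1 hn z)
    have h1 : bc θ (d 0) ∘ₗ bc θ (s 0) = LinearMap.id := by
      rw [← bc_comp, h0, bc_id]
    exact LinearMap.congr_fun h1 z
  · have h0 : d (q + 1) ∘ₗ s (q + 1) + s q ∘ₗ d q = LinearMap.id :=
      LinearMap.ext (fun z => h.2 q hq z)
    have h1 : bc θ (d (q + 1)) ∘ₗ bc θ (s (q + 1)) + bc θ (s q) ∘ₗ bc θ (d q) = LinearMap.id := by
      rw [← bc_comp, ← bc_comp, ← bc_add, h0, bc_id]
    exact LinearMap.congr_fun h1 z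

theorem aug (htr : TransferStatement) (hsp : SplitStatement) : AugStatement := by
  intro k K S Q R _ _ _ _ _ j π hses ι FK FS m
  obtain ⟨al, be, -, -, hal, hbe, hD, hE⟩ := htr k K S Q R j π hses ι FK FS
  refine ⟨⟨fun h q hq z hz => ?_, fun h q hq e he => ?_⟩, fun h => ?_⟩
  · have hcyc : IsCyc (bcD (ι.comp (gmap k j)) FK.d) q (be q z) := by
      cases q with
      | zero => trivial
      | succ q =>
        show bcD (ι.comp (gmap k j)) FK.d q (be (q + 1) z) = 0
        rw [hbe q z, show bcD (delta ι π) FS.d q z = 0 from hz, map_zero]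
    obtain ⟨e', he'⟩ := h q hq _ hcyc
    obtain ⟨w, hw⟩ := hD q z hz
    refine ⟨w + Finsupp.linearCombination R (fun y => mp (delta ι π) (al (q + 1) y)) e', ?_⟩
    rw [map_add, hw, hal q e', he', sub_add_cancel]
  · have hcyc : IsCyc (bcD (delta ι π) FS.d) q
        (Finsupp.linearCombination R (fun y => mp (delta ι π) (al q y)) e) := by
      cases q with
      | zero => trivial
      | succ q =>
        show bcD (delta ι π) FS.d q
          (Finsupp.linearCombination R (fun y => mp (delta ι π) (al (q + 1) y)) e) = 0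
        rw [hal q e, show bcD (ι.comp (gmap k j)) FK.d q e = 0 from he, map_zero]
    obtain ⟨y, hy⟩ := h q hq _ hcyc
    obtain ⟨w, hw⟩ := hE q e he
    refine ⟨w + be (q + 1) y, ?_⟩
    rw [map_add, hw, hbe q y, hy, sub_add_cancel]
  · obtain ⟨s, hs⟩ := (hsp (MonoidAlgebra R Q) FS.X (bcD (delta ι π) FS.d) m
      (bcD_isCx (delta ι π) FS.isCx)).1 h
    have h2 := contr_bc (augR R Q) _ m s hs
    rw [bcD_bcD, augR_delta] at h2
    exact (hsp R FS.X (bcD ι FS.d) m (bcD_isCx ι FS.isCx)).2 ⟨_, h2⟩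

end Pool.Agent.Lib.MP_b1a3a4_al.MVS.H30
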