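import Pool.Agent.Lib.MP_b1a3a4_al.MVS.Interfaces

/-!
# Project MVS (MP_b1a3a4_al), module FPQ: type `FP_n` over `ℤ` implies type `FP_n` over `ℚ`
-/

set_option linter.all false

namespace Pool.Agent.Lib.MP_b1a3a4_al.MVS.H30

open Finsupp

section

variable {G : Type} [Monoid G]

/-- `ℤ[G] → ℚ[G]` -/
noncomputable abbrev zq (G : Type) [Monoid G] : MonoidAlgebra ℤ G →+* MonoidAlgebra ℚ G :=
  MonoidAlgebra.mapRingHom G (Int.castRingHom ℚ)

lemma zq_inj : Function.Injective (zq G) := by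
  intro a b hab
  ext g
  have h : (zq G a).coeff g = (zq G b).coeff g := by rw [hab]
  simpa using h

lemma mp_zq_inj {X : Type} {v : X →₀ MonoidAlgebra ℤ G} (h : mp (zq G) v = 0) : v = 0 := by
  ext1 x
  apply zq_inj
  have h1 : mp (zq G) v x = 0 := by rw [h]; rfl
  rw [mp_apply] at h1
  rw [h1]
  simp

lemma aug_zq (a : MonoidAlgebra ℤ G) : aug ℚ G (zq G a) = ((aug ℤ G a : ℤ) : ℚ) := by
  induction a using MonoidAlgebra.induction_linear with
  | zero => simp
  | add a b ha hb => simp only [map_add, ha, hb, Int.cast_add]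
  | single g c => simp

lemma clear1 (x : MonoidAlgebra ℚ G) : ∃ N : ℕ, N ≠ 0 ∧ ∃ v, N • x = zq G v := by
  induction x using MonoidAlgebra.induction_linear with
  | zero => exact ⟨1, one_ne_zero, 0, by simp⟩
  | add a b ha hb =>
    obtain ⟨N, hN, v, hv⟩ := ha
    obtain ⟨M, hM, w, hw⟩ := hb
    refine ⟨N * M, mul_ne_zero hN hM, M • v + N • w, ?_⟩
    rw [map_add, map_nsmul, map_nsmul, ← hv, ← hw, smul_add, smul_smul, smul_smul, mul_comm M N]
  | single g c =>
    refine ⟨c.den, c.den_nz, MonoidAlgebra.single g c.num, ?_⟩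
    rw [MonoidAlgebra.mapRingHom_single, MonoidAlgebra.smul_single]
    congr 1
    rw [nsmul_eq_mul, mul_comm]
    exact Rat.mul_den_eq_num c

lemma clear2 {X : Type} (z : X →₀ MonoidAlgebra ℚ G) :
    ∃ N : ℕ, N ≠ 0 ∧ ∃ v, N • z = mp (zq G) v := by
  induction z using Finsupp.induction_linear with
  | zero => exact ⟨1, one_ne_zero, 0, by simp⟩
  | add a b ha hb =>
    obtain ⟨N, hN, v, hv⟩ := ha
    obtain ⟨M, hM, w, hw⟩ := hb
    refine ⟨N * M, mul_ne_zero hN hM, M • v + N • w, ?_⟩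
    have h1 : mp (zq G) (M • v) = M • mp (zq G) v := by ext; simp
    have h2 : mp (zq G) (N • w) = N • mp (zq G) w := by ext; simp
    rw [mp_add, h1, h2, ← hv, ← hw, smul_add, smul_smul, smul_smul, mul_comm M N]
  | single x a =>
    obtain ⟨N, hN, v, hv⟩ := clear1 a
    refine ⟨N, hN, Finsupp.single x v, ?_⟩
    rw [mp_single, ← hv, Finsupp.smul_single]

lemma inv_smul_nsmul {M : Type} [AddCommGroup M] [Module (MonoidAlgebra ℚ G) M] (N : ℕ)
    (hN : N ≠ 0) (z : M) :
    (MonoidAlgebra.single (1 : G) ((N : ℚ)⁻¹)) • (N • z) = z := by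
  rw [smul_comm, ← smul_assoc, MonoidAlgebra.smul_single, nsmul_eq_mul,
    mul_inv_cancel₀ (by exact_mod_cast hN), ← MonoidAlgebra.one_def, one_smul]

variable (F : FreeRes (MonoidAlgebra ℤ G) (Triv ℤ G))

/-- the augmentation over `ℚ` -/
noncomputable def eps' : (F.X 0 →₀ MonoidAlgebra ℚ G) →ₗ[MonoidAlgebra ℚ G] Triv ℚ G :=
  Finsupp.linearCombination (MonoidAlgebra ℚ G)
    (fun x => (show Triv ℚ G from (((show ℤ from F.ε (Finsupp.single x 1)) : ℤ) : ℚ)))

lemma eps'_mp (v : F.X 0 →₀ MonoidAlgebra ℤ G) :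
    eps' F (mp (zq G) v) = (show Triv ℚ G from (((show ℤ from F.ε v) : ℤ) : ℚ)) := by
  induction v using Finsupp.induction_linear with
  | zero =>
    rw [mp_zero, map_zero, map_zero]
    exact (Int.cast_zero (R := ℚ)).symm
  | add v w hv hw =>
    rw [mp_add, map_add, hv, hw, map_add]
    exact (Int.cast_add (R := ℚ) _ _).symm
  | single x a =>
    have h1 : F.ε (Finsupp.single x a) = a • F.ε (Finsupp.single x 1) := by
      rw [← map_smul, Finsupp.smul_single, smul_eq_mul, mul_one]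
    rw [mp_single, eps', Finsupp.linearCombination_single, h1, triv_smul, triv_smul, aug_zq]
    exact (Int.cast_mul (α := ℚ) _ _).symm

/-- the resolution over `ℚ` -/
noncomputable def qRes : FreeRes (MonoidAlgebra ℚ G) (Triv ℚ G) where
  X := F.X
  d := bcD (zq G) F.d
  ε := eps' F
  ε_surj := by
    intro q
    obtain ⟨v, hv⟩ := F.ε_surj (show Triv ℤ G from (1 : ℤ))
    refine ⟨MonoidAlgebra.single (1 : G) (show ℚ from q) • mp (zq G) v, ?_⟩
    rw [map_smul, eps'_mp, hv, triv_smul, aug_single]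
    show (show ℚ from q) * ((1 : ℤ) : ℚ) = (show ℚ from q)
    rw [Int.cast_one, mul_one]
  ex0 := by
    intro z
    constructor
    · intro h
      obtain ⟨N, hN, v, hv⟩ := clear2 z
      have h1 : (((show ℤ from F.ε v) : ℤ) : ℚ) = (0 : ℚ) := by
        have := eps'_mp F v
        rw [← hv, map_nsmul, h, smul_zero] at this
        exact this.symm
      have h2 : F.ε v = 0 := Int.cast_eq_zero.1 h1
      obtain ⟨y, hy⟩ := (F.ex0 v).1 h2
      refine ⟨MonoidAlgebra.single (1 : G) ((N : ℚ)⁻¹) • mp (zq G) y, ?_⟩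
      rw [map_smul, bcD, bc_mp, hy, ← hv, inv_smul_nsmul N hN]
    · rintro ⟨y, rfl⟩
      have h0 : eps' F ∘ₗ bcD (zq G) F.d 0 = 0 := by
        apply lin_ext
        intro x
        rw [LinearMap.comp_apply, bcD, bc_single, one_smul, eps'_mp, F.ε_d]
        exact Int.cast_zero (R := ℚ)
      exact LinearMap.congr_fun h0 y
  ex := by
    intro q z
    constructor
    · intro h
      obtain ⟨N, hN, v, hv⟩ := clear2 z
      have h1 : mp (zq G) (F.d q v) = 0 := by
        rw [← bc_mp, ← hv, map_nsmul]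
        rw [show bc (zq G) (F.d q) z = 0 from h, smul_zero]
      obtain ⟨y, hy⟩ := (F.ex q v).1 (mp_zq_inj h1)
      refine ⟨MonoidAlgebra.single (1 : G) ((N : ℚ)⁻¹) • mp (zq G) y, ?_⟩
      rw [map_smul, bcD, bc_mp, hy, ← hv, inv_smul_nsmul N hN]
    · rintro ⟨y, rfl⟩
      exact bcD_isCx (zq G) F.isCx q y

end

theorem fpq (hres : FpresStatement) : FpqStatement := by
  intro G _ n h
  obtain ⟨F, hF⟩ := (hres (MonoidAlgebra ℤ G) n (Triv ℤ G)).1 h
  exact (hres (MonoidAlgebra ℚ G) n (Triv ℚ G)).2 ⟨qRes F, hF⟩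

end Pool.Agent.Lib.MP_b1a3a4_al.MVS.H30
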